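import Pool.Agent.MP_33c00b_an.Iter

set_option autoImplicit false
open Filter Topology
open scoped ENNReal

namespace Pool.Agent.MP_33c00b_an

/-- The coefficients of the functionals. -/
noncomputable def cf (u : ℕ → E) (k i : ℕ) : ℂ := (1 / 4) ^ i * ((T u ^ i) (u k)) e0

/-- The functionals `Θ_k`. -/
noncomputable def Th (u : ℕ → E) (k : ℕ) : E →L[ℂ] ℂ :=
  ev e0 - ∑ i ∈ Finset.range (9 ^ k), cf u k i • ev (k, b k + i)

lemma Th_apply (u : ℕ → E) (k : ℕ) (v : E) :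
    Th u k v = v e0 - ∑ i ∈ Finset.range (9 ^ k), cf u k i * v (k, b k + i) := by
  unfold Th
  rw [sub_apply, sum_apply]
  rfl

section
variable (u : ℕ → E) (hu : ∀ k, ‖u k‖ ≤ 1)
include hu

lemma norm_cf_le (k i : ℕ) : ‖cf u k i‖ ≤ (3 / 4) ^ i := by
  unfold cf
  rw [norm_mul, norm_pow]
  have h1 := norm_T_pow_e0_le u hu (u k) i
  have h2 := hu k
  have h3 : ‖(1 / 4 : ℂ)‖ = 1 / 4 := by norm_num
  rw [h3]
  calc (1 / 4 : ℝ) ^ i * ‖((T u ^ i) (u k)) e0‖ ≤ (1 / 4) ^ i * (3 ^ i * 1) := by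
        gcongr
        exact h1.trans (by gcongr)
    _ = (3 / 4) ^ i := by rw [mul_one, ← mul_pow]; norm_num

lemma norm_Th_le (k : ℕ) (v : E) : ‖Th u k v‖ ≤ 5 * ‖v‖ := by
  rw [Th_apply]
  have h1 : ‖∑ i ∈ Finset.range (9 ^ k), cf u k i * v (k, b k + i)‖ ≤
      ∑ i ∈ Finset.range (9 ^ k), (3 / 4 : ℝ) ^ i * ‖v‖ := by
    apply norm_sum_le_of_le
    intro i _
    rw [norm_mul]
    have h2 := norm_cf_le u hu k i
    have h3 := coord_le v (k, b k + i)
    gcongr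
  have h2 : ∑ i ∈ Finset.range (9 ^ k), (3 / 4 : ℝ) ^ i ≤ 4 := by
    have h := (hasSum_geometric_of_lt_one (r := (3 / 4 : ℝ)) (by norm_num) (by norm_num))
    have h' := sum_le_hasSum (Finset.range (9 ^ k)) (fun i _ => by positivity) h
    refine h'.trans ?_
    norm_num
  rw [← Finset.sum_mul] at h1
  have h3 : (∑ i ∈ Finset.range (9 ^ k), (3 / 4 : ℝ) ^ i) * ‖v‖ ≤ 4 * ‖v‖ := by gcongr
  have h4 := coord_le v e0
  have h5 := norm_sub_le (v e0) (∑ i ∈ Finset.range (9 ^ k), cf u k i * v (k, b k + i))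
  linarith

omit hu in
lemma Th_low (k : ℕ) (z : E) (hz : ∀ i : ℕ × ℕ, k ≤ i.1 → z i = 0) : Th u k z = z e0 := by
  rw [Th_apply, Finset.sum_eq_zero, sub_zero]
  intro i _
  rw [hz (k, b k + i) le_rfl, mul_zero]

omit hu in
lemma Th_high (k : ℕ) (z : E) (hz : ∀ i : ℕ × ℕ, i.1 ≤ k → z i = 0) : Th u k z = 0 := by
  rw [Th_apply, Finset.sum_eq_zero, sub_zero]
  · exact hz e0 (Nat.zero_le _)
  · intro i _
    rw [hz (k, b k + i) le_rfl, mul_zero]

omit hu in
lemma Th_g_first {k p : ℕ} (hk : 1 ≤ k) (hp : p < b k) : Th u k (g (k, p)) = 0 := by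
  rw [Th_apply, Finset.sum_eq_zero, sub_zero]
  · apply g_ne
    intro h
    have := (Prod.ext_iff.mp h).1
    simp [e0] at this
    omega
  · intro i _
    rw [g_ne, mul_zero]
    intro h
    have := (Prod.ext_iff.mp h).2
    simp at this
    omega

omit hu in
lemma Th_g_second {k i : ℕ} (hk : 1 ≤ k) (hi : i < 9 ^ k) :
    Th u k (g (k, b k + i)) = - cf u k i := by
  rw [Th_apply, Finset.sum_eq_single i]
  · rw [g_self, mul_one, g_ne, zero_sub]
    intro h
    have := (Prod.ext_iff.mp h).1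
    simp [e0] at this
    omega
  · intro j _ hj
    rw [g_ne, mul_zero]
    intro h
    have := (Prod.ext_iff.mp h).2
    simp at this
    exact hj this
  · intro h
    exact absurd (Finset.mem_range.mpr hi) h

omit hu in
lemma Th_e0 (k : ℕ) (hk : 1 ≤ k) : Th u k (g e0) = 1 := by
  rw [Th_low, g_self]
  intro i hi
  apply g_ne
  intro h
  rw [h] at hi
  simp [e0] at hi
  omega

variable (hs : ∀ k i, k ≤ i.1 → u k i = 0)
include hs

/-- Iterates of vectors on early blocks stay on early blocks. -/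
lemma T_low (k : ℕ) (v : E) (hv : ∀ i : ℕ × ℕ, k ≤ i.1 → v i = 0) (i : ℕ × ℕ) (hi : k ≤ i.1) :
    T u v i = 0 := by
  rw [T_apply]
  change Wop v i + Kop u v i = 0
  rw [Wop_apply, hv (τ i) hi, mul_zero, zero_add]
  have h := (hasSum_Kop u hu v).mapL (ev i)
  have h2 : (fun m => ev i ((δ m : ℂ) • (v (m, b m - 1) • u m))) = fun _ => 0 := by
    funext m
    rw [map_smul, map_smul, ev_apply]
    by_cases hm : k ≤ m
    · rw [hv (m, b m - 1) hm, zero_smul, smul_zero]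
    · rw [hs m i (by omega), smul_zero, smul_zero]
  rw [h2] at h
  exact h.unique hasSum_zero

lemma T_pow_low (k : ℕ) (v : E) (hv : ∀ i : ℕ × ℕ, k ≤ i.1 → v i = 0) (n : ℕ) :
    ∀ i : ℕ × ℕ, k ≤ i.1 → (T u ^ n) v i = 0 := by
  induction n with
  | zero => simpa using hv
  | succ n ih =>
    rw [pow_succ_apply']
    exact T_low u hu hs k _ ih

/-- The cancellation property of the functional. -/
lemma Th_cancel {k : ℕ} (hk : 1 ≤ k) (i : ℕ) : Th u k ((T u ^ i) (g (k, b k) + u k)) = 0 := by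
  by_cases hi : i < 9 ^ k
  · rw [map_add, map_add]
    have h := T_pow_second u hu (k := k) (i := 0) (n := i) (by omega)
    rw [add_zero] at h
    rw [h, map_smul, Th_g_second u hk hi, Th_low u k _ (T_pow_low u hu hs k (u k) (hs k) i)]
    unfold cf
    rw [smul_eq_mul, mul_neg, ← mul_assoc, ← mul_pow]
    norm_num
  · rw [map_add, T_pow_end' u hu le_rfl (by omega), zero_add,
      T_pow_nil u hu hs k (u k) (hs k) i (by omega), map_zero]

lemma Th_T_pow_g {k n : ℕ} (hk : 1 ≤ k) (hn : 9 ^ k ≤ n) (i : ℕ × ℕ) (hi : i.1 ≤ k) :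
    Th u k ((T u ^ n) (g i)) = 0 := by
  obtain ⟨m, p⟩ := i
  simp only at hi
  by_cases hm : m < k
  · rw [T_pow_nil u hu hs k (g (m, p)) _ n hn, map_zero]
    intro j hj
    apply g_ne
    intro h
    rw [h] at hj
    simp at hj
    omega
  · have hmk : m = k := by omega
    subst hmk
    by_cases hp : b m ≤ p
    · rw [T_pow_end' u hu hp hn, map_zero]
    · by_cases hpn : p + n < b m
      · rw [T_pow_lt u hu hpn, map_smul, Th_g_first u hk hpn, smul_zero]
      · obtain ⟨q, hq⟩ : ∃ q, p + q + 1 = b m := ⟨b m - p - 1, by omega⟩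
        obtain ⟨r, hr⟩ : ∃ r, n = r + (q + 1) := ⟨n - (q + 1), by omega⟩
        rw [hr, pow_add_apply, T_pow_exit u hu hq, map_smul, map_smul,
          Th_cancel u hu hs hk, smul_zero]

/-- Restriction to the blocks after `k`. -/
noncomputable def aR (k : ℕ) (i : ℕ × ℕ) : ℂ := if i.1 ≤ k then 0 else 1

omit hu hs in
lemma norm_aR_le (k : ℕ) (i : ℕ × ℕ) : ‖aR k i‖ ≤ 1 := by
  unfold aR; split_ifs <;> simp

noncomputable def Rop (k : ℕ) : E →L[ℂ] E :=
  wcomp (aR k) id 1 (by norm_num) (norm_aR_le k) (Function.injective_id.injOn)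

omit hu hs in
lemma Rop_apply (k : ℕ) (v : E) (i : ℕ × ℕ) : Rop k v i = aR k i * v i := rfl

omit hu hs in
lemma norm_Rop_le (k : ℕ) (v : E) : ‖Rop k v‖ ≤ ‖v‖ := by
  have h := norm_wcomp_le (aR k) id 1 (by norm_num) (norm_aR_le k)
    (Function.injective_id.injOn) v
  rw [one_mul] at h
  exact h

lemma Th_T_pow_le {k n : ℕ} (hk : 1 ≤ k) (hn : 9 ^ k ≤ n) (hn' : n ≤ 9 ^ (k + 1)) (v : E) :
    ‖Th u k ((T u ^ n) v)‖ ≤ 5 * (5 / 8) ^ n * ‖v‖ := by
  have h1 : Th u k ((T u ^ n) (v - Rop k v)) = 0 := by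
    have h := clm_eq_zero ((Th u k).comp (T u ^ n)) (v - Rop k v) ?_
    · exact h
    · intro i hi
      have hi' : i.1 ≤ k := by
        by_contra hik
        apply hi
        change v i - Rop k v i = 0
        rw [Rop_apply]
        simp [aR, hik]
      exact Th_T_pow_g u hu hs hk hn i hi'
  have h2 : Th u k ((T u ^ n) v) = Th u k ((T u ^ n) (Rop k v)) := by
    rw [map_sub, map_sub, sub_eq_zero] at h1
    exact h1
  obtain ⟨w, r, hwr, hw, _, hr⟩ := tail_split u hu k (Rop k v)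
    (fun i hi => by rw [Rop_apply]; simp [aR, hi]) n
  rw [h2, hwr, map_add, Th_high u k w hw, zero_add]
  have h3 := norm_Th_le u hu k r
  have h4 := norm_Rop_le k v
  have h5 : (1 / 8 : ℝ) ^ (9 ^ (k + 1)) ≤ (1 / 8) ^ n :=
    pow_le_pow_of_le_one (by norm_num) (by norm_num) hn'
  have h6 : (5 : ℝ) ^ n - 4 ^ n ≤ 5 ^ n := by
    have : (0 : ℝ) ≤ 4 ^ n := by positivity
    linarith
  have h7 : (0 : ℝ) ≤ 5 ^ n - 4 ^ n := by
    have : (4 : ℝ) ^ n ≤ 5 ^ n := by gcongr; norm_num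
    linarith
  have h8 : ‖r‖ ≤ (1 / 8) ^ n * (5 ^ n * ‖v‖) := by
    refine hr.trans ?_
    gcongr
  have h9 : (1 / 8 : ℝ) ^ n * (5 ^ n * ‖v‖) = (5 / 8) ^ n * ‖v‖ := by
    rw [← mul_assoc, ← mul_pow]; norm_num
  calc ‖Th u k r‖ ≤ 5 * ‖r‖ := h3
    _ ≤ 5 * ((5 / 8) ^ n * ‖v‖) := by rw [← h9]; gcongr
    _ = _ := by ring

/-- No orbit comes close to the special vector at late times. -/
lemma orbit_far {n : ℕ} (hn : 9 ≤ n) (v : E) :
    1 ≤ 5 * (5 / 8 : ℝ) ^ n * ‖v‖ + 5 * ‖(T u ^ n) v - g e0‖ := by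
  obtain ⟨k, hk, h1, h2⟩ : ∃ k, 1 ≤ k ∧ 9 ^ k ≤ n ∧ n ≤ 9 ^ (k + 1) := by
    refine ⟨Nat.log 9 n, ?_, ?_, ?_⟩
    · exact Nat.le_log_of_pow_le (by norm_num) (by simpa using hn)
    · exact Nat.pow_log_le_self 9 (by omega)
    · exact (Nat.lt_pow_succ_log_self (by norm_num) n).le
  have h3 := Th_T_pow_le u hu hs hk h1 h2 v
  have h4 := norm_Th_le u hu k ((T u ^ n) v - g e0)
  rw [map_sub, Th_e0 u k hk] at h4
  have h5 : ‖(1 : ℂ)‖ ≤ ‖Th u k ((T u ^ n) v)‖ + ‖Th u k ((T u ^ n) v) - 1‖ := by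
    have := norm_sub_le (Th u k ((T u ^ n) v)) (Th u k ((T u ^ n) v) - 1)
    simpa using this
  rw [norm_one] at h5
  linarith

/-- `T` is not hypercyclic. -/
theorem not_hypercyclic (v : E) : ¬ Dense (Set.range fun n : ℕ => (T u ^ n) v) := by
  intro hd
  -- eventually the orbit stays away from `g e0`
  have htend : Tendsto (fun n : ℕ => 5 * (5 / 8 : ℝ) ^ n * ‖v‖) atTop (𝓝 0) := by
    have h := (tendsto_pow_atTop_nhds_zero_of_lt_one (r := (5 / 8 : ℝ))
      (by norm_num) (by norm_num)).const_mul 5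
    have h' := h.mul_const ‖v‖
    simpa using h'
  obtain ⟨N, hN⟩ := (htend.eventually (gt_mem_nhds (show (0 : ℝ) < 1 / 2 by norm_num))).exists_forall_of_atTop
  have hfar : ∀ n, max N 9 ≤ n → 1 / 10 < ‖(T u ^ n) v - g e0‖ := by
    intro n hn
    have h1 := hN n (le_trans (le_max_left _ _) hn)
    have h2 := orbit_far u hu hs (le_trans (le_max_right _ _) hn) v
    linarith
  -- remove finitely many points
  have : Nontrivial E := ⟨⟨g e0, 0, fun h => by
    have h1 := norm_g e0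
    rw [h, norm_zero] at h1
    norm_num at h1⟩⟩
  have hne : ∀ x : E, NeBot (𝓝[≠] x) := fun x => Module.punctured_nhds_neBot ℂ E x
  have hd' := hd.sdiff_finite ((Set.finite_Iio (max N 9)).image (fun n : ℕ => (T u ^ n) v))
  obtain ⟨z, hz, hz'⟩ := Metric.dense_iff.mp hd' (g e0) (1 / 10) (by norm_num)
  obtain ⟨⟨n, rfl⟩, hn⟩ := hz'
  have hn' : max N 9 ≤ n := by
    by_contra h
    exact hn ⟨n, by simpa using not_le.mp h, rfl⟩
  have h1 := hfar n hn'
  rw [Metric.mem_ball, dist_eq_norm] at hz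
  linarith

end

end Pool.Agent.MP_33c00b_an
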