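import Pool.Agent.MP_33c00b_an.Op

set_option autoImplicit false
open Filter Topology
open scoped ENNReal

namespace Pool.Agent.MP_33c00b_an

lemma pow_add_apply (A : E →L[ℂ] E) (m n : ℕ) (v : E) :
    (A ^ (m + n)) v = (A ^ m) ((A ^ n) v) := by
  rw [pow_add]; rfl

lemma pow_succ_apply' (A : E →L[ℂ] E) (n : ℕ) (v : E) :
    (A ^ (n + 1)) v = A ((A ^ n) v) := by
  rw [pow_succ']; rfl

lemma pow_succ_apply (A : E →L[ℂ] E) (n : ℕ) (v : E) :
    (A ^ (n + 1)) v = (A ^ n) (A v) := by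
  rw [pow_succ]; rfl

section
variable (u : ℕ → E) (hu : ∀ k, ‖u k‖ ≤ 1)
include hu

lemma T_pow_lt {k p n : ℕ} (h : p + n < b k) :
    (T u ^ n) (g (k, p)) = (2 : ℂ) ^ n • g (k, p + n) := by
  induction n with
  | zero => simp
  | succ n ih =>
    rw [pow_succ_apply', ih (by omega), map_smul, T_g_lt u hu (by omega), smul_smul, pow_succ]
    rfl

lemma T_pow_exit {k p n : ℕ} (h : p + n + 1 = b k) :
    (T u ^ (n + 1)) (g (k, p)) = ((2 : ℂ) ^ n * (δ k : ℂ)) • (g (k, b k) + u k) := by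
  rw [pow_succ_apply', T_pow_lt u hu (by omega), map_smul, T_g_eq u hu h, smul_smul]

lemma T_pow_second {k i n : ℕ} (h : i + n < 9 ^ k) :
    (T u ^ n) (g (k, b k + i)) = (4 : ℂ) ^ n • g (k, b k + i + n) := by
  have hb := b_add k
  induction n with
  | zero => simp
  | succ n ih =>
    rw [pow_succ_apply', ih (by omega), map_smul, T_g_gt u hu (by omega) (by omega), smul_smul,
      pow_succ]
    rfl

lemma T_pow_end {k p n : ℕ} (h : b k ≤ p) (hn : 1 ≤ n) (h' : 9 ^ (k + 1) ≤ p + n) :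
    (T u ^ n) (g (k, p)) = 0 := by
  induction n generalizing p with
  | zero => omega
  | succ n ih =>
    rw [pow_succ_apply]
    by_cases h1 : 9 ^ (k + 1) ≤ p + 1
    · rw [T_g_end u hu h1, map_zero]
    · rw [T_g_gt u hu h (by omega), map_smul, ih (by omega) (by omega) (by omega), smul_zero]

lemma T_pow_end' {k p n : ℕ} (h : b k ≤ p) (hn : 9 ^ k ≤ n) :
    (T u ^ n) (g (k, p)) = 0 := by
  have hb := b_add k
  have h9 : 0 < 9 ^ k := by positivity
  exact T_pow_end u hu h (by omega) (by omega)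

variable (hs : ∀ k i, k ≤ i.1 → u k i = 0)
include hs

lemma T_pow_nil (m : ℕ) :
    ∀ v : E, (∀ i : ℕ × ℕ, m ≤ i.1 → v i = 0) → ∀ n, 9 ^ m ≤ n → (T u ^ n) v = 0 := by
  induction m with
  | zero =>
    intro v hv n _
    apply clm_eq_zero
    intro i hi
    exact absurd (hv i (Nat.zero_le _)) hi
  | succ m ih =>
    intro v hv n hn
    apply clm_eq_zero
    rintro ⟨k, p⟩ hi
    have hk : k < m + 1 := by
      by_contra h
      exact hi (hv (k, p) (by simpa using h))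
    have hb := b_add k
    have h9 : 0 < 9 ^ k := by positivity
    have h9' : 9 ^ (k + 1) ≤ 9 ^ (m + 1) := Nat.pow_le_pow_right (by norm_num) hk
    by_cases hp : b k ≤ p
    · exact T_pow_end' u hu hp (by omega)
    · obtain ⟨q, hq⟩ : ∃ q, p + q + 1 = b k := ⟨b k - p - 1, by omega⟩
      obtain ⟨r, hr⟩ : ∃ r, n = r + (q + 1) := ⟨n - (q + 1), by omega⟩
      rw [hr, pow_add_apply, T_pow_exit u hu hq, map_smul, map_add,
        T_pow_end' u hu le_rfl (by omega), zero_add]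
      have hkm : k ≤ m := by omega
      have h9'' : 9 ^ k ≤ 9 ^ m := Nat.pow_le_pow_right (by norm_num) hkm
      rw [show (T u ^ r) (u k) = 0 from ?_, smul_zero]
      by_cases hkm' : k = m
      · subst hkm'
        exact ih (u k) (hs k) r (by omega)
      · apply ih (u k) (fun i hi' => hs k i (by omega)) r
        have : 9 ^ (k + 1) ≤ 9 ^ m := Nat.pow_le_pow_right (by norm_num) (by omega)
        have : 9 ^ (m + 1) = 9 * 9 ^ m := by ring
        omega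

end

/-- The projection killing the second parts of the chains. -/
noncomputable def aQ (i : ℕ × ℕ) : ℂ := if b i.1 ≤ i.2 ∧ i.2 < 9 ^ (i.1 + 1) then 0 else 1

lemma norm_aQ_le (i : ℕ × ℕ) : ‖aQ i‖ ≤ 1 := by
  unfold aQ; split_ifs <;> simp

noncomputable def Qop : E →L[ℂ] E :=
  wcomp aQ id 1 (by norm_num) norm_aQ_le (Function.injective_id.injOn)

lemma Qop_apply (v : E) (i : ℕ × ℕ) : Qop v i = aQ i * v i := rfl

lemma norm_Qop_le (v : E) : ‖Qop v‖ ≤ ‖v‖ := by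
  have h := norm_wcomp_le aQ id 1 (by norm_num) norm_aQ_le (Function.injective_id.injOn) v
  rw [one_mul] at h
  exact h

noncomputable def aW' (i : ℕ × ℕ) : ℂ := if i.2 = 0 then 0 else if i.2 < b i.1 then 2 else 0

lemma norm_aW'_le (i : ℕ × ℕ) : ‖aW' i‖ ≤ 2 := by
  unfold aW'; split_ifs <;> simp

noncomputable def Wop' : E →L[ℂ] E :=
  wcomp aW' τ 2 (by norm_num) norm_aW'_le (injOn_τ aW' (by intro k; simp [aW']))

lemma norm_Wop'_le (v : E) : ‖Wop' v‖ ≤ 2 * ‖v‖ := norm_wcomp_le _ _ _ _ _ _ v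

lemma Q_W (v : E) : Qop (Wop v) = Wop' (Qop v) := by
  ext ⟨k, p⟩
  rw [Qop_apply, Wop_apply]
  change _ = aW' (k, p) * (Qop v (τ (k, p)))
  rw [Qop_apply]
  have hb := b_add k
  have h9 : 0 < 9 ^ k := by positivity
  by_cases h0 : p = 0
  · simp [aW, aW', h0]
  by_cases h1 : p < b k
  · have h2 : ¬ (b k ≤ p) := by omega
    have h3 : ¬ (b k ≤ p - 1) := by omega
    simp [aW, aW', aQ, τ, h0, h1, h2, h3]
  · by_cases h4 : p < 9 ^ (k + 1)
    · have h5 : b k ≤ p := by omega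
      simp [aW', aQ, h0, h1, h4, h5]
    · have h6 : ¬ (p = b k) := by omega
      simp [aW, aW', h0, h1, h4, h6]

lemma Q_exit (v : E) (k : ℕ) : Qop v (k, b k - 1) = v (k, b k - 1) := by
  rw [Qop_apply]
  have hb := b_pos k
  have h1 : ¬ (b k ≤ b k - 1) := by omega
  simp [aQ, h1]

section
variable (u : ℕ → E) (hu : ∀ k, ‖u k‖ ≤ 1)
include hu

lemma norm_Q_T_le (v : E) : ‖Qop (T u v)‖ ≤ 3 * ‖Qop v‖ := by
  rw [T_apply, map_add, Q_W]
  have h1 := norm_Wop'_le (Qop v)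
  have h2 : ‖Qop (Kop u v)‖ ≤ ‖Qop v‖ := by
    refine (norm_Qop_le _).trans ?_
    apply norm_Kop_le u hu
    intro k
    rw [← Q_exit v k]
    have h1 := δ_le k
    have h2 := coord_le (Qop v) (k, b k - 1)
    have h3 := (δ_pos k).le
    calc δ k * ‖Qop v (k, b k - 1)‖ ≤ (1 / 2) ^ (k + 1) * ‖Qop v‖ := by gcongr
      _ = _ := by ring
  have h3 := norm_add_le (Wop' (Qop v)) (Qop (Kop u v))
  linarith

lemma norm_Q_T_pow_le (v : E) (n : ℕ) : ‖Qop ((T u ^ n) v)‖ ≤ 3 ^ n * ‖v‖ := by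
  induction n with
  | zero => simpa using norm_Qop_le v
  | succ n ih =>
    rw [pow_succ_apply']
    calc ‖Qop (T u ((T u ^ n) v))‖ ≤ 3 * ‖Qop ((T u ^ n) v)‖ := norm_Q_T_le u hu _
      _ ≤ 3 * (3 ^ n * ‖v‖) := by gcongr
      _ = _ := by ring

/-- The special coordinate. -/
def e0 : ℕ × ℕ := (0, 9)

omit hu in
lemma Q_e0 (v : E) : Qop v e0 = v e0 := by
  rw [Qop_apply]
  simp [aQ, e0]

lemma norm_T_pow_e0_le (v : E) (n : ℕ) : ‖(T u ^ n) v e0‖ ≤ 3 ^ n * ‖v‖ := by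
  rw [← Q_e0]
  exact (coord_le _ _).trans (norm_Q_T_pow_le u hu v n)

lemma norm_T_pow_le (v : E) (n : ℕ) : ‖(T u ^ n) v‖ ≤ 5 ^ n * ‖v‖ := by
  induction n with
  | zero => simp
  | succ n ih =>
    rw [pow_succ_apply']
    calc ‖T u ((T u ^ n) v)‖ ≤ 5 * ‖(T u ^ n) v‖ := norm_T_le u hu _
      _ ≤ 5 * (5 ^ n * ‖v‖) := by gcongr
      _ = _ := by ring

/-- Splitting of the orbit of a vector living on late blocks. -/
lemma tail_split (k : ℕ) (v : E) (hv : ∀ i : ℕ × ℕ, i.1 ≤ k → v i = 0) (n : ℕ) :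
    ∃ w r : E, (T u ^ n) v = w + r ∧ (∀ i : ℕ × ℕ, i.1 ≤ k → w i = 0) ∧
      ‖w‖ ≤ 4 ^ n * ‖v‖ ∧ ‖r‖ ≤ (1 / 8) ^ (9 ^ (k + 1)) * ((5 ^ n - 4 ^ n) * ‖v‖) := by
  induction n with
  | zero => exact ⟨v, 0, by simp, hv, by simp, by simp⟩
  | succ n ih =>
    obtain ⟨w, r, h1, h2, h3, h4⟩ := ih
    refine ⟨Wop w, Kop u w + T u r, ?_, ?_, ?_, ?_⟩
    · rw [pow_succ_apply', h1, map_add, T_apply u w, add_assoc]
    · intro i hi
      rw [Wop_apply, h2 (τ i) hi, mul_zero]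
    · calc ‖Wop w‖ ≤ 4 * ‖w‖ := norm_Wop_le w
        _ ≤ 4 * (4 ^ n * ‖v‖) := by gcongr
        _ = _ := by ring
    · have h5 : ‖Kop u w‖ ≤ (1 / 8) ^ (9 ^ (k + 1)) * ‖w‖ := by
        apply norm_Kop_le u hu
        intro m
        by_cases hm : m ≤ k
        · rw [h2 (m, b m - 1) hm, norm_zero, mul_zero]
          positivity
        · have h6 := δ_le_of_lt (not_le.mp hm)
          have h7 := coord_le w (m, b m - 1)
          have h8 := (δ_pos m).le
          calc δ m * ‖w (m, b m - 1)‖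
              ≤ ((1 / 8) ^ (9 ^ (k + 1)) * (1 / 2) ^ (m + 1)) * ‖w‖ := by gcongr
            _ = _ := by ring
      have h6 := norm_T_le u hu r
      have h7 := norm_add_le (Kop u w) (T u r)
      have h8 : (1 / 8 : ℝ) ^ (9 ^ (k + 1)) * ‖w‖ ≤
          (1 / 8) ^ (9 ^ (k + 1)) * (4 ^ n * ‖v‖) := by gcongr
      calc ‖Kop u w + T u r‖ ≤ (1 / 8) ^ (9 ^ (k + 1)) * (4 ^ n * ‖v‖) +
            5 * ((1 / 8) ^ (9 ^ (k + 1)) * ((5 ^ n - 4 ^ n) * ‖v‖)) := by linarith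
        _ = _ := by ring

end

end Pool.Agent.MP_33c00b_an
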