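import Pool.Agent.MP_33c00b_an.Wcomp

set_option autoImplicit false
open Filter Topology
open scoped ENNReal

namespace Pool.Agent.MP_33c00b_an

/-- Standard unit vectors of `ℓ²(ℕ × ℕ)`. -/
noncomputable def g (i : ℕ × ℕ) : E := lp.single 2 i (1 : ℂ)

lemma g_self (i : ℕ × ℕ) : g i i = 1 :=
  lp.single_apply_self (E := fun _ : ℕ × ℕ => ℂ) 2 i 1

lemma g_ne {i j : ℕ × ℕ} (h : j ≠ i) : g i j = 0 :=
  lp.single_apply_ne (E := fun _ : ℕ × ℕ => ℂ) 2 i 1 h

lemma g_apply (i j : ℕ × ℕ) : g i j = if j = i then 1 else 0 := by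
  split_ifs with h
  · rw [h, g_self]
  · exact g_ne h

lemma norm_g (i : ℕ × ℕ) : ‖g i‖ = 1 := by
  unfold g
  rw [lp.norm_single (by norm_num)]
  simp

lemma hasSum_g (v : E) : HasSum (fun i => v i • g i) v := by
  have h := lp.hasSum_single (p := 2) (by norm_num) v
  convert h using 2 with i
  unfold g
  rw [← lp.single_smul]
  simp

lemma coord_le (v : E) (i : ℕ × ℕ) : ‖v i‖ ≤ ‖v‖ :=
  lp.norm_apply_le_norm (by norm_num) v i

lemma clm_eq_zero {G : Type*} [NormedAddCommGroup G] [NormedSpace ℂ G] (Φ : E →L[ℂ] G) (v : E)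
    (h : ∀ i, v i ≠ 0 → Φ (g i) = 0) : Φ v = 0 := by
  have h1 := (hasSum_g v).mapL Φ
  have h2 : (fun i => Φ (v i • g i)) = fun _ => 0 := by
    funext i
    rw [map_smul]
    by_cases hi : v i = 0
    · rw [hi, zero_smul]
    · rw [h i hi, smul_zero]
  rw [h2] at h1
  exact h1.unique hasSum_zero

/-- Coordinate functionals. -/
noncomputable def ev (i : ℕ × ℕ) : E →L[ℂ] ℂ := lp.evalCLM ℂ (fun _ : ℕ × ℕ => ℂ) 2 i

lemma ev_apply (i : ℕ × ℕ) (v : E) : ev i v = v i := rfl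

lemma norm_ev_le (i : ℕ × ℕ) : ‖ev i‖ ≤ 1 := by
  apply ContinuousLinearMap.opNorm_le_bound _ zero_le_one
  intro v
  rw [one_mul, ev_apply]
  exact coord_le v i

/-- Length of the first part of the `k`-th chain. -/
def b (k : ℕ) : ℕ := 8 * 9 ^ k

lemma b_pos (k : ℕ) : 0 < b k := by unfold b; positivity

lemma b_add (k : ℕ) : b k + 9 ^ k = 9 ^ (k + 1) := by unfold b; ring

lemma lt_nine_pow (k : ℕ) : k < 9 ^ k := Nat.lt_pow_self (by norm_num)

/-- The exit weights. -/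
noncomputable def δ (k : ℕ) : ℝ := (1 / 16) ^ (9 ^ k)

lemma δ_pos (k : ℕ) : 0 < δ k := by unfold δ; positivity

lemma δ_le (k : ℕ) : δ k ≤ (1 / 2) ^ (k + 1) := by
  unfold δ
  calc ((1 : ℝ) / 16) ^ (9 ^ k) ≤ (1 / 16) ^ (k + 1) :=
        pow_le_pow_of_le_one (by norm_num) (by norm_num) (lt_nine_pow k)
    _ ≤ (1 / 2) ^ (k + 1) := by gcongr; norm_num

lemma δ_le_of_lt {k m : ℕ} (h : k < m) :
    δ m ≤ (1 / 8) ^ (9 ^ (k + 1)) * (1 / 2) ^ (m + 1) := by
  unfold δ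
  have h1 : ((1 : ℝ) / 16) ^ (9 ^ m) = (1 / 8) ^ (9 ^ m) * (1 / 2) ^ (9 ^ m) := by
    rw [← mul_pow]; norm_num
  rw [h1]
  apply mul_le_mul
  · apply pow_le_pow_of_le_one (by norm_num) (by norm_num)
    exact Nat.pow_le_pow_right (by norm_num) h
  · apply pow_le_pow_of_le_one (by norm_num) (by norm_num) (lt_nine_pow m)
  · positivity
  · positivity

lemma hasSum_half : HasSum (fun k : ℕ => ((1 : ℝ) / 2) ^ (k + 1)) 1 := by
  have h := (hasSum_geometric_two).mul_left (1 / 2 : ℝ)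
  have e : (fun k : ℕ => ((1 : ℝ) / 2) ^ (k + 1)) = fun k : ℕ => 1 / 2 * (1 / 2) ^ k := by
    funext k
    rw [pow_succ]
    ring
  have e2 : (1 : ℝ) / 2 * 2 = 1 := by norm_num
  rw [e2] at h
  rw [e]
  exact h

lemma summable_δ : Summable δ :=
  Summable.of_nonneg_of_le (fun k => (δ_pos k).le) δ_le hasSum_half.summable

/-- The terms of the finite-rank-sum part of the operator. -/
noncomputable def Kterm (u : ℕ → E) (k : ℕ) : E →L[ℂ] E :=
  (δ k : ℂ) • (ev (k, b k - 1)).smulRight (u k)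

lemma Kterm_apply (u : ℕ → E) (k : ℕ) (v : E) :
    Kterm u k v = (δ k : ℂ) • (v (k, b k - 1) • u k) := rfl

lemma norm_Kterm_le (u : ℕ → E) (hu : ∀ k, ‖u k‖ ≤ 1) (k : ℕ) : ‖Kterm u k‖ ≤ δ k := by
  apply ContinuousLinearMap.opNorm_le_bound _ (δ_pos k).le
  intro v
  rw [Kterm_apply, norm_smul, norm_smul, Complex.norm_real, Real.norm_of_nonneg (δ_pos k).le]
  apply mul_le_mul_of_nonneg_left _ (δ_pos k).le
  calc ‖v (k, b k - 1)‖ * ‖u k‖ ≤ ‖v‖ * 1 :=
        mul_le_mul (coord_le _ _) (hu k) (norm_nonneg _) (norm_nonneg _)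
    _ = ‖v‖ := mul_one _

/-- The sum of the rank-one parts. -/
noncomputable def Kop (u : ℕ → E) : E →L[ℂ] E := ∑' k, Kterm u k

lemma summable_Kterm (u : ℕ → E) (hu : ∀ k, ‖u k‖ ≤ 1) : Summable (Kterm u) :=
  Summable.of_norm_bounded summable_δ (norm_Kterm_le u hu)

lemma hasSum_Kop (u : ℕ → E) (hu : ∀ k, ‖u k‖ ≤ 1) (v : E) :
    HasSum (fun k => (δ k : ℂ) • (v (k, b k - 1) • u k)) (Kop u v) := by
  have h := (summable_Kterm u hu).hasSum.mapL (ContinuousLinearMap.apply ℂ E v)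
  exact h

lemma norm_Kop_le (u : ℕ → E) (hu : ∀ k, ‖u k‖ ≤ 1) (v : E) (c : ℝ)
    (h : ∀ k, δ k * ‖v (k, b k - 1)‖ ≤ c * (1 / 2) ^ (k + 1)) : ‖Kop u v‖ ≤ c := by
  have h1 : HasSum (fun k : ℕ => c * ((1 : ℝ) / 2) ^ (k + 1)) c := by
    simpa using hasSum_half.mul_left c
  apply (hasSum_Kop u hu v).norm_le_of_bounded h1
  intro k
  rw [norm_smul, norm_smul, Complex.norm_real, Real.norm_of_nonneg (δ_pos k).le]
  calc δ k * (‖v (k, b k - 1)‖ * ‖u k‖) ≤ δ k * (‖v (k, b k - 1)‖ * 1) := by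
        have := hu k
        have := (δ_pos k).le
        gcongr
    _ = δ k * ‖v (k, b k - 1)‖ := by ring
    _ ≤ _ := h k

lemma Kop_g (u : ℕ → E) (hu : ∀ k, ‖u k‖ ≤ 1) (k p : ℕ) :
    Kop u (g (k, p)) = if p = b k - 1 then (δ k : ℂ) • u k else 0 := by
  have h := hasSum_Kop u hu (g (k, p))
  have h2 : HasSum (fun k' => (δ k' : ℂ) • (g (k, p) (k', b k' - 1) • u k'))
      (if p = b k - 1 then (δ k : ℂ) • u k else 0) := by
    convert hasSum_single k _ using 1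
    · rw [g_apply]
      by_cases hp : p = b k - 1
      · rw [if_pos hp, if_pos (by rw [hp]), one_smul]
      · rw [if_neg hp, if_neg (by intro h; apply hp; exact (Prod.ext_iff.mp h).2.symm),
          zero_smul, smul_zero]
    · intro k' hk'
      rw [g_ne (by intro h; apply hk'; exact (Prod.ext_iff.mp h).1), zero_smul, smul_zero]
  exact h.unique h2

/-- Weights of the chain part (indexed by the target position). -/
noncomputable def aW (i : ℕ × ℕ) : ℂ :=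
  if i.2 = 0 then 0 else if i.2 < b i.1 then 2 else if i.2 = b i.1 then (δ i.1 : ℂ)
  else if i.2 < 9 ^ (i.1 + 1) then 4 else 0

def τ (i : ℕ × ℕ) : ℕ × ℕ := (i.1, i.2 - 1)

lemma δ_le_one (k : ℕ) : δ k ≤ 1 := (δ_le k).trans (pow_le_one₀ (by norm_num) (by norm_num))

lemma norm_aW_le (i : ℕ × ℕ) : ‖aW i‖ ≤ 4 := by
  unfold aW
  split_ifs
  · simp
  · norm_num
  · rw [Complex.norm_real, Real.norm_of_nonneg (δ_pos _).le]
    exact (δ_le_one _).trans (by norm_num)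
  · norm_num
  · simp

lemma injOn_τ (a : ℕ × ℕ → ℂ) (ha : ∀ k, a (k, 0) = 0) : Set.InjOn τ {i | a i ≠ 0} := by
  rintro ⟨k, p⟩ hi ⟨k', p'⟩ hj hij
  unfold τ at hij
  rw [Prod.mk.injEq] at hij
  obtain ⟨h1, h2⟩ := hij
  have hp : p ≠ 0 := by
    rintro rfl
    exact hi (ha k)
  have hp' : p' ≠ 0 := by
    rintro rfl
    exact hj (ha k')
  simp only at h1 h2
  rw [Prod.mk.injEq]
  exact ⟨h1, by omega⟩

lemma aW_zero (k : ℕ) : aW (k, 0) = 0 := by simp [aW]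

/-- The weighted chain shift. -/
noncomputable def Wop : E →L[ℂ] E :=
  wcomp aW τ 4 (by norm_num) norm_aW_le (injOn_τ aW aW_zero)

lemma Wop_apply (v : E) (i : ℕ × ℕ) : Wop v i = aW i * v (τ i) := rfl

lemma norm_Wop_le (v : E) : ‖Wop v‖ ≤ 4 * ‖v‖ := norm_wcomp_le _ _ _ _ _ _ v

lemma Wop_g (k p : ℕ) : Wop (g (k, p)) = aW (k, p + 1) • g (k, p + 1) := by
  ext ⟨k', p'⟩
  rw [Wop_apply, lp.coeFn_smul, Pi.smul_apply, smul_eq_mul, g_apply, g_apply]
  unfold τ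
  simp only [Prod.mk.injEq]
  by_cases hk : k' = k
  · subst hk
    by_cases hp : p' = 0
    · subst hp
      rw [aW_zero]
      simp
    · by_cases h : p' = p + 1
      · subst h
        simp
      · have : ¬ (p' - 1 = p) := by omega
        simp [h, this]
  · simp [hk]

/-- The operator. -/
noncomputable def T (u : ℕ → E) : E →L[ℂ] E := Wop + Kop u

lemma T_apply (u : ℕ → E) (v : E) : T u v = Wop v + Kop u v := rfl

lemma norm_Kop_le_norm (u : ℕ → E) (hu : ∀ k, ‖u k‖ ≤ 1) (v : E) : ‖Kop u v‖ ≤ ‖v‖ := by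
  apply norm_Kop_le u hu v
  intro k
  have h1 := δ_le k
  have h2 := coord_le v (k, b k - 1)
  have h3 := (δ_pos k).le
  calc δ k * ‖v (k, b k - 1)‖ ≤ (1 / 2) ^ (k + 1) * ‖v‖ := by gcongr
    _ = _ := by ring

lemma norm_T_le (u : ℕ → E) (hu : ∀ k, ‖u k‖ ≤ 1) (v : E) : ‖T u v‖ ≤ 5 * ‖v‖ := by
  rw [T_apply]
  have h1 := norm_Wop_le v
  have h2 := norm_Kop_le_norm u hu v
  have h3 := norm_add_le (Wop v) (Kop u v)
  linarith

/-- `T` on the first part of a chain. -/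
lemma T_g_lt (u : ℕ → E) (hu : ∀ k, ‖u k‖ ≤ 1) {k p : ℕ} (h : p + 1 < b k) :
    T u (g (k, p)) = (2 : ℂ) • g (k, p + 1) := by
  rw [T_apply, Wop_g, Kop_g u hu, if_neg (by omega), add_zero]
  have : aW (k, p + 1) = 2 := by simp [aW, h]
  rw [this]

/-- `T` at the exit of a chain. -/
lemma T_g_eq (u : ℕ → E) (hu : ∀ k, ‖u k‖ ≤ 1) {k p : ℕ} (h : p + 1 = b k) :
    T u (g (k, p)) = (δ k : ℂ) • (g (k, b k) + u k) := by
  rw [T_apply, Wop_g, Kop_g u hu, if_pos (by omega)]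
  have : aW (k, p + 1) = (δ k : ℂ) := by simp [aW, h, (b_pos k).ne']
  rw [this, h, smul_add]

/-- `T` on the second part of a chain. -/
lemma T_g_gt (u : ℕ → E) (hu : ∀ k, ‖u k‖ ≤ 1) {k p : ℕ} (h : b k ≤ p) (h' : p + 1 < 9 ^ (k + 1)) :
    T u (g (k, p)) = (4 : ℂ) • g (k, p + 1) := by
  have hb := b_pos k
  rw [T_apply, Wop_g, Kop_g u hu, if_neg (by omega), add_zero]
  have : aW (k, p + 1) = 4 := by
    have h1 : ¬ (p + 1 < b k) := by omega
    have h2 : ¬ (p + 1 = b k) := by omega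
    simp [aW, h1, h2, h']
  rw [this]

/-- `T` kills the end of a chain (and the unused vectors). -/
lemma T_g_end (u : ℕ → E) (hu : ∀ k, ‖u k‖ ≤ 1) {k p : ℕ} (h' : 9 ^ (k + 1) ≤ p + 1) :
    T u (g (k, p)) = 0 := by
  have hb := b_pos k
  have hb' := b_add k
  have h9 : 0 < 9 ^ k := by positivity
  rw [T_apply, Wop_g, Kop_g u hu, if_neg (by omega), add_zero]
  have : aW (k, p + 1) = 0 := by
    have h1 : ¬ (p + 1 < b k) := by omega
    have h2 : ¬ (p + 1 = b k) := by omega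
    have h3 : ¬ (p + 1 < 9 ^ (k + 1)) := by omega
    simp [aW, h1, h2, h3]
  rw [this, zero_smul]

end Pool.Agent.MP_33c00b_an
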