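import Mathlib

set_option autoImplicit false
open Filter Topology
open scoped ENNReal

namespace Pool.Agent.MP_33c00b_an

/-- The Hilbert space `ℓ²(ℕ × ℕ)`. -/
abbrev E : Type := lp (fun _ : ℕ × ℕ => ℂ) 2

lemma two_toReal : (2 : ℝ≥0∞).toReal = 2 := by norm_num

lemma sum_wcomp_le (a : ℕ × ℕ → ℂ) (τ : ℕ × ℕ → ℕ × ℕ) (C : ℝ) (hC : 0 ≤ C)
    (ha : ∀ i, ‖a i‖ ≤ C) (hinj : Set.InjOn τ {i | a i ≠ 0}) (v : E)
    (s : Finset (ℕ × ℕ)) :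
    ∑ i ∈ s, ‖a i * v (τ i)‖ ^ (2 : ℝ≥0∞).toReal ≤ (C * ‖v‖) ^ (2 : ℝ≥0∞).toReal := by
  classical
  rw [two_toReal]
  have h1 : ∑ i ∈ s, ‖a i * v (τ i)‖ ^ (2 : ℝ) =
      ∑ i ∈ s.filter (fun i => a i ≠ 0), ‖a i * v (τ i)‖ ^ (2 : ℝ) := by
    symm
    apply Finset.sum_subset (Finset.filter_subset _ _)
    intro i hi hi'
    have : a i = 0 := by
      by_contra h
      exact hi' (Finset.mem_filter.mpr ⟨hi, h⟩)
    simp [this]
  have h2 : ∑ i ∈ s.filter (fun i => a i ≠ 0), ‖a i * v (τ i)‖ ^ (2 : ℝ) ≤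
      ∑ i ∈ s.filter (fun i => a i ≠ 0), C ^ (2 : ℝ) * ‖v (τ i)‖ ^ (2 : ℝ) := by
    apply Finset.sum_le_sum
    intro i _
    rw [norm_mul, Real.mul_rpow (norm_nonneg _) (norm_nonneg _)]
    apply mul_le_mul_of_nonneg_right _ (by positivity)
    exact Real.rpow_le_rpow (norm_nonneg _) (ha i) (by norm_num)
  have h3 : ∑ i ∈ s.filter (fun i => a i ≠ 0), C ^ (2 : ℝ) * ‖v (τ i)‖ ^ (2 : ℝ) =
      C ^ (2 : ℝ) * ∑ j ∈ (s.filter (fun i => a i ≠ 0)).image τ, ‖v j‖ ^ (2 : ℝ) := by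
    rw [← Finset.mul_sum, Finset.sum_image]
    intro i hi j hj hij
    exact hinj (Finset.mem_filter.mp hi).2 (Finset.mem_filter.mp hj).2 hij
  have h4 : ∑ j ∈ (s.filter (fun i => a i ≠ 0)).image τ, ‖v j‖ ^ (2 : ℝ) ≤ ‖v‖ ^ (2 : ℝ) := by
    have := lp.sum_rpow_le_norm_rpow (p := 2) (by norm_num) v
      ((s.filter (fun i => a i ≠ 0)).image τ)
    rwa [two_toReal] at this
  rw [h1]
  refine h2.trans ?_
  rw [h3, Real.mul_rpow hC (norm_nonneg _)]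
  exact mul_le_mul_of_nonneg_left h4 (by positivity)

/-- Weighted composition operator `v ↦ (i ↦ a i * v (τ i))` on `ℓ²`. -/
noncomputable def wcomp (a : ℕ × ℕ → ℂ) (τ : ℕ × ℕ → ℕ × ℕ) (C : ℝ) (hC : 0 ≤ C)
    (ha : ∀ i, ‖a i‖ ≤ C) (hinj : Set.InjOn τ {i | a i ≠ 0}) : E →L[ℂ] E :=
  LinearMap.mkContinuous
    { toFun := fun v => ⟨fun i => a i * v (τ i),
        memℓp_gen' (C := (C * ‖v‖) ^ (2 : ℝ≥0∞).toReal) (sum_wcomp_le a τ C hC ha hinj v)⟩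
      map_add' := by
        intro v w
        ext i
        change a i * (v (τ i) + w (τ i)) = a i * v (τ i) + a i * w (τ i)
        ring
      map_smul' := by
        intro c v
        ext i
        change a i * (c * v (τ i)) = c * (a i * v (τ i))
        ring }
    C
    (by
      intro v
      apply lp.norm_le_of_forall_sum_le (by norm_num) (by positivity)
      intro s
      exact sum_wcomp_le a τ C hC ha hinj v s)

@[simp] lemma wcomp_apply (a : ℕ × ℕ → ℂ) (τ : ℕ × ℕ → ℕ × ℕ) (C : ℝ) (hC : 0 ≤ C)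
    (ha : ∀ i, ‖a i‖ ≤ C) (hinj : Set.InjOn τ {i | a i ≠ 0}) (v : E) (i : ℕ × ℕ) :
    wcomp a τ C hC ha hinj v i = a i * v (τ i) := rfl

lemma norm_wcomp_le (a : ℕ × ℕ → ℂ) (τ : ℕ × ℕ → ℕ × ℕ) (C : ℝ) (hC : 0 ≤ C)
    (ha : ∀ i, ‖a i‖ ≤ C) (hinj : Set.InjOn τ {i | a i ≠ 0}) (v : E) :
    ‖wcomp a τ C hC ha hinj v‖ ≤ C * ‖v‖ := by
  apply lp.norm_le_of_forall_sum_le (by norm_num) (by positivity)
  intro s
  exact sum_wcomp_le a τ C hC ha hinj v s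

end Pool.Agent.MP_33c00b_an
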