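import Pool.Agent.MP_33c00b_an.Func

set_option autoImplicit false
open Filter Topology
open scoped ENNReal

namespace Pool.Agent.MP_33c00b_an

/-- The coefficients of the weakly hypercyclic vector. -/
noncomputable def lam (M : ℕ → ℕ) (k : ℕ) : ℝ := 2 * M k * δ k

lemma two_pow_mul_δ_sq (k : ℕ) : (2 : ℝ) ^ (b k) * (δ k * δ k) = 1 := by
  unfold b δ
  rw [← mul_pow, pow_mul, ← mul_pow]
  norm_num

lemma lam_nonneg (M : ℕ → ℕ) (k : ℕ) : 0 ≤ lam M k := by
  unfold lam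
  have := (δ_pos k).le
  positivity

/-- key smallness estimate for the coefficients -/
lemma lam_mul_le (M : ℕ → ℕ) (hM : ∀ k, M k ≤ k) {j k : ℕ} (hj : j ≤ k) :
    lam M k * 2 ^ (9 ^ k) ≤ (1 / 2) ^ j * (1 / 2) ^ (k + 1) := by
  unfold lam δ
  have h1 : (M k : ℝ) ≤ 2 ^ (9 ^ k) := by
    have h : M k ≤ 2 ^ (9 ^ k) :=
      (hM k).trans ((lt_nine_pow k).le.trans (Nat.lt_two_pow_self).le)
    exact_mod_cast h
  have h2 : (2 * (M k : ℝ) * (1 / 16) ^ (9 ^ k)) * 2 ^ (9 ^ k) ≤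
      (2 * (2 : ℝ) ^ (9 ^ k) * (1 / 16) ^ (9 ^ k)) * 2 ^ (9 ^ k) := by gcongr
  have h3 : (2 * (2 : ℝ) ^ (9 ^ k) * (1 / 16) ^ (9 ^ k)) * 2 ^ (9 ^ k) =
      2 * ((1 / 2) ^ (9 ^ k) * (1 / 2) ^ (9 ^ k)) := by
    have : ((2 : ℝ) ^ (9 ^ k) * (1 / 16) ^ (9 ^ k)) * 2 ^ (9 ^ k) =
      ((1 / 2) ^ (9 ^ k) * (1 / 2) ^ (9 ^ k)) := by
      rw [← mul_pow, ← mul_pow, ← mul_pow]; norm_num
    rw [← this]; ring
  have h4 : ((1 : ℝ) / 2) ^ (9 ^ k) ≤ (1 / 2) ^ (k + 1) :=
    pow_le_pow_of_le_one (by norm_num) (by norm_num) (lt_nine_pow k)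
  have h5 : ((1 : ℝ) / 2) ^ (9 ^ k) ≤ (1 / 2) ^ (j + 1) :=
    pow_le_pow_of_le_one (by norm_num) (by norm_num) (by have := lt_nine_pow k; omega)
  calc (2 * (M k : ℝ) * (1 / 16) ^ (9 ^ k)) * 2 ^ (9 ^ k)
      ≤ 2 * ((1 / 2) ^ (9 ^ k) * (1 / 2) ^ (9 ^ k)) := by rw [← h3]; exact h2
    _ ≤ 2 * ((1 / 2) ^ (j + 1) * (1 / 2) ^ (k + 1)) := by gcongr
    _ = (1 / 2) ^ j * (1 / 2) ^ (k + 1) := by rw [pow_succ _ j]; ring

lemma lam_le (M : ℕ → ℕ) (hM : ∀ k, M k ≤ k) (k : ℕ) : lam M k ≤ (1 / 2) ^ (k + 1) := by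
  have h := lam_mul_le M hM (Nat.zero_le k)
  have h0 := lam_nonneg M k
  have h1 : (1 : ℝ) ≤ 2 ^ (9 ^ k) := one_le_pow₀ (by norm_num)
  calc lam M k = lam M k * 1 := (mul_one _).symm
    _ ≤ lam M k * 2 ^ (9 ^ k) := by gcongr
    _ ≤ _ := by simpa using h

/-- The weakly 1-sequentially hypercyclic vector. -/
noncomputable def xv (M : ℕ → ℕ) : E := ∑' k, (lam M k : ℂ) • g (k, 0)

lemma norm_lam_smul (M : ℕ → ℕ) (k : ℕ) : ‖(lam M k : ℂ) • g (k, 0)‖ = lam M k := by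
  rw [norm_smul, norm_g, mul_one, Complex.norm_real, Real.norm_of_nonneg (lam_nonneg M k)]

lemma hasSum_xv (M : ℕ → ℕ) (hM : ∀ k, M k ≤ k) :
    HasSum (fun k => (lam M k : ℂ) • g (k, 0)) (xv M) := by
  apply Summable.hasSum
  apply Summable.of_norm_bounded hasSum_half.summable
  intro k
  rw [norm_lam_smul]
  exact lam_le M hM k

lemma orbit_xv (M : ℕ → ℕ) (hM : ∀ k, M k ≤ k) (u : ℕ → E) (hu : ∀ k, ‖u k‖ ≤ 1)
    (hs : ∀ k i, k ≤ i.1 → u k i = 0) (k : ℕ) :
    ‖(T u ^ (b k)) (xv M) - (M k : ℂ) • (g (k, b k) + u k)‖ ≤ (1 / 2) ^ k := by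
  have h1 := (hasSum_xv M hM).mapL (T u ^ (b k))
  have h2 : HasSum (fun m => if m = k then (M k : ℂ) • (g (k, b k) + u k) else (0 : E))
      ((M k : ℂ) • (g (k, b k) + u k)) := hasSum_ite_eq k _
  have h3 := h1.sub h2
  have h4 : HasSum (fun m : ℕ => ((1 : ℝ) / 2) ^ k * (1 / 2) ^ (m + 1)) ((1 / 2) ^ k) := by
    simpa using hasSum_half.mul_left ((1 / 2 : ℝ) ^ k)
  apply h3.norm_le_of_bounded h4
  intro m
  have hb := b_pos k
  have hba := b_add k
  rcases lt_trichotomy m k with hm | hm | hm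
  · -- earlier blocks are killed
    have h5 : (T u ^ (b k)) (g (m, 0)) = 0 := by
      apply T_pow_nil u hu hs (m + 1)
      · intro i hi
        apply g_ne
        intro h
        rw [h] at hi
        simp at hi
      · have h6 : 9 ^ (m + 1) ≤ 9 ^ k := Nat.pow_le_pow_right (by norm_num) hm
        unfold b
        omega
    rw [map_smul, h5, if_neg hm.ne, smul_zero, sub_zero, norm_zero]
    positivity
  · subst hm
    rw [if_pos rfl, map_smul]
    obtain ⟨q, hq⟩ : ∃ q, 0 + q + 1 = b m := ⟨b m - 1, by omega⟩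
    have h5 := T_pow_exit u hu hq
    have hq' : q + 1 = b m := by omega
    rw [hq'] at h5
    rw [h5, smul_smul]
    have h6 : (lam M m : ℂ) * (2 ^ q * (δ m : ℂ)) = (M m : ℂ) := by
      have h7 := two_pow_mul_δ_sq m
      have h8 : lam M m * (2 ^ q * δ m) = M m := by
        unfold lam
        rw [← hq', pow_succ] at h7
        linear_combination (M m : ℝ) * h7
      exact_mod_cast h8
    rw [h6, sub_self, norm_zero]
    positivity
  · rw [if_neg hm.ne', sub_zero, map_smul]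
    have h9 : 9 ^ (k + 1) ≤ 9 ^ m := Nat.pow_le_pow_right (by norm_num) hm
    have h5 : 0 + b k < b m := by
      unfold b at *
      have : 9 ^ (k + 1) = 9 * 9 ^ k := by ring
      have : 0 < 9 ^ k := by positivity
      omega
    rw [T_pow_lt u hu h5, smul_smul, norm_smul, norm_g, mul_one, norm_mul, Complex.norm_real,
      Real.norm_of_nonneg (lam_nonneg M m), norm_pow, Complex.norm_ofNat]
    have h6 := lam_mul_le M hM hm.le
    have h7 : (2 : ℝ) ^ (b k) ≤ 2 ^ (9 ^ m) := by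
      apply pow_le_pow_right₀ (by norm_num)
      omega
    have h8 := lam_nonneg M m
    calc lam M m * 2 ^ (b k) ≤ lam M m * 2 ^ (9 ^ m) := by gcongr
      _ ≤ _ := h6

/-- Restriction to the blocks before `k`. -/
noncomputable def aP (k : ℕ) (i : ℕ × ℕ) : ℂ := if i.1 < k then 1 else 0

lemma norm_aP_le (k : ℕ) (i : ℕ × ℕ) : ‖aP k i‖ ≤ 1 := by
  unfold aP; split_ifs <;> simp

noncomputable def Pop (k : ℕ) : E →L[ℂ] E :=
  wcomp (aP k) id 1 (by norm_num) (norm_aP_le k) (Function.injective_id.injOn)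

lemma Pop_apply (k : ℕ) (v : E) (i : ℕ × ℕ) : Pop k v i = aP k i * v i := rfl

lemma norm_Pop_le (k : ℕ) (v : E) : ‖Pop k v‖ ≤ ‖v‖ := by
  have h := norm_wcomp_le (aP k) id 1 (by norm_num) (norm_aP_le k)
    (Function.injective_id.injOn) v
  rw [one_mul] at h
  exact h

lemma Pop_eq_self {k : ℕ} {v : E} (h : ∀ i : ℕ × ℕ, k ≤ i.1 → v i = 0) : Pop k v = v := by
  ext i
  rw [Pop_apply]
  by_cases hi : i.1 < k
  · simp [aP, hi]
  · rw [h i (by omega), mul_zero]

lemma Pop_tendsto (v : E) (ε : ℝ) (hε : 0 < ε) : ∃ K, ∀ k, K ≤ k → ‖Pop k v - v‖ < ε := by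
  have h := hasSum_g v
  rw [HasSum] at h
  have h1 := (Metric.tendsto_nhds.mp h (ε / 2) (by linarith)).exists
  obtain ⟨s, hs⟩ := h1
  rw [dist_eq_norm] at hs
  set w := ∑ i ∈ s, v i • g i with hw
  refine ⟨s.sup Prod.fst + 1, fun k hk => ?_⟩
  have h2 : Pop k w = w := by
    apply Pop_eq_self
    intro i hi
    rw [hw]
    have : (∑ j ∈ s, v j • g j : E) i = ∑ j ∈ s, v j * g j i := by
      rw [lp.coeFn_sum, Finset.sum_apply]
      rfl
    rw [this]
    apply Finset.sum_eq_zero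
    intro j hj
    rw [g_ne, mul_zero]
    rintro rfl
    have := Finset.le_sup (f := Prod.fst) hj
    omega
  have h3 : Pop k v - v = Pop k (v - w) + (w - v) := by
    rw [map_sub, h2]; abel
  rw [h3]
  calc ‖Pop k (v - w) + (w - v)‖ ≤ ‖Pop k (v - w)‖ + ‖w - v‖ := norm_add_le _ _
    _ ≤ ‖v - w‖ + ‖w - v‖ := by gcongr; exact norm_Pop_le _ _
    _ = ‖w - v‖ + ‖w - v‖ := by rw [norm_sub_rev]
    _ < ε := by linarith

lemma separable_E : TopologicalSpace.SeparableSpace E := by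
  have h1 : (Submodule.span ℂ (Set.range g)).topologicalClosure = ⊤ := by
    rw [Submodule.eq_top_iff']
    intro v
    apply mem_closure_of_tendsto (hasSum_g v)
    filter_upwards with s
    apply Submodule.sum_mem
    intro i _
    exact Submodule.smul_mem _ _ (Submodule.subset_span ⟨i, rfl⟩)
  have h2 : TopologicalSpace.IsSeparable (Set.range g) := (Set.countable_range g).isSeparable
  have h3 : TopologicalSpace.IsSeparable (Submodule.span ℂ (Set.range g) : Set E) := h2.span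
  have h4 : TopologicalSpace.IsSeparable (Set.univ : Set E) := by
    have h5 := h3.closure
    have h6 : closure (Submodule.span ℂ (Set.range g) : Set E) = Set.univ := by
      have := congrArg (fun S : Submodule ℂ E => (S : Set E)) h1
      simpa using this
    rwa [h6] at h5
  exact TopologicalSpace.isSeparable_univ_iff.mp h4

/-- Existence of the enumeration used in the construction. -/
lemma exists_data : ∃ (M : ℕ → ℕ) (u : ℕ → E), (∀ k, M k ≤ k) ∧ (∀ k, ‖u k‖ ≤ 1) ∧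
    (∀ k (i : ℕ × ℕ), k ≤ i.1 → u k i = 0) ∧
    ∀ (m : ℕ) (y : E), ‖y‖ ≤ 1 → ∀ t : ℕ, ∀ ε : ℝ, 0 < ε →
      ∃ k, t ≤ k ∧ M k = m ∧ ‖u k - y‖ < ε := by
  have := separable_E
  obtain ⟨d, hd⟩ := TopologicalSpace.exists_dense_seq (Metric.closedBall (0 : E) 1)
  refine ⟨fun k => k.unpair.1, fun k => Pop k (d k.unpair.2.unpair.1 : E), ?_, ?_, ?_, ?_⟩
  · intro k
    exact Nat.unpair_left_le k
  · intro k
    refine (norm_Pop_le _ _).trans ?_
    have h := (d k.unpair.2.unpair.1).2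
    rw [Metric.mem_closedBall, dist_zero_right] at h
    exact h
  · intro k i hi
    change Pop k _ i = 0
    rw [Pop_apply]
    simp [aP, hi]
  · intro m y hy t ε hε
    have hy' : y ∈ Metric.closedBall (0 : E) 1 := by simpa using hy
    obtain ⟨_, hz, ⟨j, rfl⟩⟩ := Metric.dense_iff.mp hd ⟨y, hy'⟩ (ε / 2) (by linarith)
    have hz' : ‖(d j : E) - y‖ < ε / 2 := by
      rw [Metric.mem_ball, Subtype.dist_eq, dist_eq_norm] at hz
      exact hz
    obtain ⟨K, hK⟩ := Pop_tendsto (d j : E) (ε / 2) (by linarith)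
    refine ⟨Nat.pair m (Nat.pair j (max t K)), ?_, ?_, ?_⟩
    · have h1 := Nat.right_le_pair m (Nat.pair j (max t K))
      have h2 := Nat.right_le_pair j (max t K)
      have h3 := le_max_left t K
      omega
    · simp
    · simp only [Nat.unpair_pair]
      have h1 := Nat.right_le_pair m (Nat.pair j (max t K))
      have h2 := Nat.right_le_pair j (max t K)
      have h3 := le_max_right t K
      have h4 := hK (Nat.pair m (Nat.pair j (max t K))) (by omega)
      calc ‖Pop _ (d j : E) - y‖ = ‖(Pop (Nat.pair m (Nat.pair j (max t K))) (d j : E) - d j) + (d j - y)‖ := by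
            congr 1; abel
        _ ≤ ‖Pop (Nat.pair m (Nat.pair j (max t K))) (d j : E) - d j‖ + ‖(d j : E) - y‖ := norm_add_le _ _
        _ < ε := by linarith

/-- Unit vectors with first index tending to infinity are weakly null. -/
lemma weak_null (φ : E →L[ℂ] ℂ) (m p : ℕ → ℕ) (hm : ∀ t, t ≤ m t) :
    Tendsto (fun t => φ (g (m t, p t))) atTop (𝓝 0) := by
  obtain ⟨y, hy⟩ := (InnerProductSpace.toDual ℂ E).surjective φ
  have h1 : ∀ i, φ (g i) = (starRingEnd ℂ) (y i) := by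
    intro i
    rw [← hy, InnerProductSpace.toDual_apply_apply]
    unfold g
    rw [lp.inner_single_right]
    simp
  have h2 : Summable (fun i => ‖y i‖ ^ (2 : ℝ≥0∞).toReal) :=
    (lp.memℓp y).summable (by norm_num)
  have h3 : Tendsto (fun i => ‖y i‖ ^ (2 : ℝ≥0∞).toReal) cofinite (𝓝 0) :=
    h2.tendsto_cofinite_zero
  have h4 : Tendsto (fun i => ‖y i‖) cofinite (𝓝 0) := by
    have h5 := (h3.sqrt)
    rw [Real.sqrt_zero] at h5
    refine h5.congr (fun i => ?_)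
    rw [two_toReal, Real.rpow_two, Real.sqrt_sq (norm_nonneg _)]
  have h6 : Tendsto (fun t => (m t, p t)) atTop cofinite := by
    intro s hs
    rw [mem_cofinite] at hs
    rw [mem_map, mem_atTop_sets]
    refine ⟨hs.toFinset.sup Prod.fst + 1, fun t ht => ?_⟩
    by_contra h
    have h8 : (m t, p t) ∈ hs.toFinset := by
      rw [Set.Finite.mem_toFinset]
      exact h
    have h9 := Finset.le_sup (f := Prod.fst) h8
    have h10 := hm t
    simp only at h9
    omega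
  rw [tendsto_zero_iff_norm_tendsto_zero]
  have h7 := h4.comp h6
  refine h7.congr (fun t => ?_)
  rw [h1]
  simp

/-- Weak 1-sequential hypercyclicity. -/
theorem weakly_hc (M : ℕ → ℕ) (hM : ∀ k, M k ≤ k) (u : ℕ → E) (hu : ∀ k, ‖u k‖ ≤ 1)
    (hs : ∀ k (i : ℕ × ℕ), k ≤ i.1 → u k i = 0)
    (hd : ∀ (m : ℕ) (y : E), ‖y‖ ≤ 1 → ∀ t : ℕ, ∀ ε : ℝ, 0 < ε →
      ∃ k, t ≤ k ∧ M k = m ∧ ‖u k - y‖ < ε) (y : E) :
    ∃ n : ℕ → ℕ, ∀ φ : E →L[ℂ] ℂ,
      Tendsto (fun t => φ ((T u ^ (n t)) (xv M))) atTop (𝓝 (φ y)) := by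
  obtain ⟨m, hm⟩ := exists_nat_gt ‖y‖
  have hm0 : (0 : ℝ) < m := lt_of_le_of_lt (norm_nonneg _) hm
  have hmc : (m : ℂ) ≠ 0 := by
    have : (m : ℝ) ≠ 0 := hm0.ne'
    exact_mod_cast this
  set y' : E := (m : ℂ)⁻¹ • y with hy'
  have hy'n : ‖y'‖ ≤ 1 := by
    rw [hy', norm_smul, norm_inv, Complex.norm_natCast]
    rw [inv_mul_le_iff₀ hm0]
    linarith
  have hyy : (m : ℂ) • y' = y := by
    rw [hy', smul_smul, mul_inv_cancel₀ hmc, one_smul]
  choose k hk1 hk2 hk3 using fun t : ℕ => hd m y' hy'n t (1 / ((t : ℝ) + 1)) (by positivity)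
  refine ⟨fun t => b (k t), fun φ => ?_⟩
  -- the three error terms
  have ht1 : Tendsto (fun t : ℕ => (1 : ℝ) / ((t : ℝ) + 1)) atTop (𝓝 0) :=
    tendsto_one_div_add_atTop_nhds_zero_nat
  have e1 : Tendsto (fun t => u (k t)) atTop (𝓝 y') := by
    rw [tendsto_iff_norm_sub_tendsto_zero]
    exact squeeze_zero (fun t => norm_nonneg _) (fun t => (hk3 t).le) ht1
  have e2 : Tendsto (fun t => (T u ^ (b (k t))) (xv M) -
      (M (k t) : ℂ) • (g (k t, b (k t)) + u (k t))) atTop (𝓝 0) := by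
    rw [tendsto_zero_iff_norm_tendsto_zero]
    refine squeeze_zero (fun t => norm_nonneg _) (g := fun t : ℕ => ((1 : ℝ) / 2) ^ t) ?_ ?_
    · intro t
      exact (orbit_xv M hM u hu hs (k t)).trans
        (pow_le_pow_of_le_one (by norm_num) (by norm_num) (hk1 t))
    · exact tendsto_pow_atTop_nhds_zero_of_lt_one (by norm_num) (by norm_num)
  have e3 := weak_null φ k (fun t => b (k t)) hk1
  have f1 : Tendsto (fun t => φ (u (k t))) atTop (𝓝 (φ y')) :=
    (φ.continuous.tendsto y').comp e1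
  have f2 : Tendsto (fun t => φ ((T u ^ (b (k t))) (xv M) -
      (M (k t) : ℂ) • (g (k t, b (k t)) + u (k t)))) atTop (𝓝 0) := by
    have := (φ.continuous.tendsto 0).comp e2
    rwa [map_zero] at this
  have f3 := (f2.add ((e3.add f1).const_mul (m : ℂ)))
  rw [zero_add, zero_add, ← smul_eq_mul, ← map_smul, hyy] at f3
  refine f3.congr (fun t => ?_)
  rw [map_sub, map_smul, map_add, hk2 t, smul_eq_mul]
  ring

end Pool.Agent.MP_33c00b_an
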